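import Pool.Agent.Results.MP_4e64b4_nt.DominatedFixedFields
import Pool.Agent.X27.Cln.Red

/-!
# The vanishing of `μ` for totally real fields: the reduction to tight fields

Let `p` be a prime. For a finite group `Γ` call a subgroup `H` of order prime to `p` a *peak* if some irreducible
`𝔽_p[Γ]`-module `V` has a nonzero `H`-fixed vector and no nonzero vector fixed by a subgroup of order prime to `p`
which is larger than `H`. A number field `M` is *tight* if in each totally real field `L` with `M = L^H`,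
`H ≤ Aut L` of order prime to `p`, the subgroup `H` is a peak. So `M` is the field of smallest degree which carries
some irreducible `𝔽_p[Aut L]`-module.

* If `μ_p = 0` for the tight totally real fields of degree at most `n` then `μ_p = 0` for all the totally real fields
  of degree at most `n`.
* `μ_p(L) = 0` if and only if `μ_p(L^H) = 0` for the peaks `H` of `Aut L`.
* The group of automorphisms of a tight field is small: its subgroups of order `q r`, with `q` and `r` primes different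
  from `p`, are cyclic, and for odd `p` the product of two involutions has `p`-power order, and the nonabelian simple
  subgroups have odd order.
-/

set_option autoImplicit false

open NumberField

namespace Pool.Agent.Results.MP_4e64b4_nt.TightFields

open Pool.Agent.X27.Cln Pool.Agent.X310.Mu Pool.Agent.Results.MP_4e64b4_nt.DominatedFixedFields

/-- Some irreducible (finite) `𝔽_p[Γ]`-module `V`, written multiplicatively, has a nontrivial vector fixed by `H` and
no nontrivial vector fixed by a subgroup of order prime to `p` with more elements than `H`. -/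
def Peak (p : ℕ) {Γ : Type} [Group Γ] (H : Subgroup Γ) : Prop :=
  ∃ (V : Type) (_ : CommGroup V) (_ : Finite V) (b : Γ →* MulAut V), (∀ v : V, v ^ p = 1) ∧
    (∀ U : Subgroup V, (∀ g, ∀ u ∈ U, b g u ∈ U) → U = ⊥ ∨ U = ⊤) ∧
    (∃ v : V, v ≠ 1 ∧ ∀ h ∈ H, b h v = v) ∧
    ∀ D : Subgroup Γ, ¬ p ∣ Nat.card D → Nat.card H < Nat.card D → ∀ v : V, (∀ d ∈ D, b d v = v) → v = 1

/-- In each totally real field `L` with `M = L^H`, `H` of order prime to `p`, the subgroup `H` is a peak. -/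
def Tight (p : ℕ) (M : IntermediateField ℚ ℂ) : Prop :=
  ∀ L : IntermediateField ℚ ℂ, FiniteDimensional ℚ L → IsTotallyReal L → ∀ H : Subgroup (L ≃ₐ[ℚ] L),
    ¬ p ∣ Nat.card H → fx L H = M → Peak p H

section group
variable {Γ : Type} [Group Γ] [Finite Γ]

theorem not_peak {p : ℕ} {H : Subgroup Γ} (h : ¬ Peak p H) :
    Dominates p H (fun D : {D : Subgroup Γ // ¬ p ∣ Nat.card D ∧ Nat.card H < Nat.card D} => D.1) := by
  intro V _ _ b hV hirr hv
  by_contra hno
  apply h
  refine ⟨V, inferInstance, inferInstance, b, hV, hirr, hv, fun D hD hlt v hfix => ?_⟩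
  by_contra hv1
  exact hno ⟨⟨D, hD, hlt⟩, v, hv1, hfix⟩

/-- The peaks dominate each subgroup. -/
theorem peaks_dominate {p : ℕ} (hp : p.Prime) :
    Dominates p (⊥ : Subgroup Γ) (fun D : {D : Subgroup Γ // ¬ p ∣ Nat.card D ∧ Peak p D} => D.1) := by
  classical
  intro V _ _ b hV hirr hv
  let S : Set (Subgroup Γ) := {D | ¬ p ∣ Nat.card D ∧ ∃ v : V, v ≠ 1 ∧ ∀ d ∈ D, b d v = v}
  have hS : S.Finite := Set.toFinite S
  have hne : S.Nonempty := ⟨⊥, card_bot hp, hv⟩
  obtain ⟨H, hH, hmax⟩ := Set.exists_max_image S (fun D => Nat.card D) hS hne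
  refine ⟨⟨H, hH.1, V, inferInstance, inferInstance, b, hV, hirr, hH.2, fun D hD hlt v hfix => ?_⟩, hH.2⟩
  by_contra hv1
  exact absurd (hmax D ⟨hD, v, hv1, hfix⟩) (not_le.2 hlt)

theorem zp_not_dvd {p : ℕ} {g : Γ} (h : ¬ p ∣ orderOf g) : ¬ p ∣ Nat.card (Subgroup.zpowers g) := by
  rwa [Nat.card_zpowers]

/-- The product over a subgroup is fixed by it. -/
theorem prod_fixed [Fintype Γ] {V : Type} [CommGroup V] (b : Γ →* MulAut V) (D : Subgroup Γ)
    [DecidablePred (· ∈ D)] (v : V) (d : Γ) (hd : d ∈ D) :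
    b d (∏ g ∈ Finset.univ.filter (fun g => g ∈ D), b g v) =
      ∏ g ∈ Finset.univ.filter (fun g => g ∈ D), b g v := by
  rw [map_prod]
  refine Finset.prod_bij (fun g _ => d * g) ?_ ?_ ?_ ?_
  · intro g hg
    simp only [Finset.mem_filter, Finset.mem_univ, true_and] at hg ⊢
    exact D.mul_mem hd hg
  · intro a _ c _ h
    exact mul_left_cancel h
  · intro g hg
    simp only [Finset.mem_filter, Finset.mem_univ, true_and] at hg
    refine ⟨d⁻¹ * g, ?_, by group⟩
    simp only [Finset.mem_filter, Finset.mem_univ, true_and]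
    exact D.mul_mem (D.inv_mem hd) hg
  · intro g _
    rw [map_mul, MulAut.mul_apply]

variable {V : Type} [CommGroup V] (b : Γ →* MulAut V)

theorem cyclic_of_free {p : ℕ} (hp : p.Prime) (hV : ∀ v : V, v ^ p = 1) (hne : ∃ v : V, v ≠ 1)
    (hfree : ∀ D : Subgroup Γ, ¬ p ∣ Nat.card D → D ≠ ⊥ → ∀ v : V, (∀ d ∈ D, b d v = v) → v = 1)
    (Γ' : Subgroup Γ) {q r : ℕ} (hq : q.Prime) (hr : r.Prime) (hqp : q ≠ p) (hrp : r ≠ p)
    (hc : Nat.card Γ' = q * r) : IsCyclic Γ' := by
  classical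
  by_contra hcyc
  have : Fintype Γ := Fintype.ofFinite _
  have : Fintype (Subgroup Γ') := Fintype.ofFinite _
  have hpt := isPart_map (prime_part (X := Γ') hq hr hc hcyc)
  have hcard := prime_part_card (X := Γ') hq hr hc hcyc
  have hcop : ∀ d : ℕ, d ∣ q * r → ¬ p ∣ d := by
    intro d hd hpd
    rcases (Nat.Prime.dvd_mul hp).1 (hpd.trans hd) with h | h
    · exact hqp ((Nat.prime_dvd_prime_iff_eq hp hq).1 h).symm
    · exact hrp ((Nat.prime_dvd_prime_iff_eq hp hr).1 h).symm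
  have htriv : ∀ D : Subgroup Γ, D ≤ Γ' → D ≠ ⊥ → ∀ v : V,
      ∏ g ∈ Finset.univ.filter (fun g => g ∈ D), b g v = 1 := by
    intro D hD hD0 v
    refine hfree D (hcop _ ?_) hD0 _ fun d hd => prod_fixed b D v d hd
    rw [← hc]
    exact Subgroup.card_dvd_of_le hD
  obtain ⟨v, hv⟩ := hne
  apply hv
  have h1 := part_relation hpt (fun g => b g v)
  have hΓ0 : Γ' ≠ ⊥ := by
    intro h0
    rw [h0, Subgroup.card_bot] at hc
    have := hq.two_le
    have := hr.two_le
    nlinarith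
  rw [htriv Γ' le_rfl hΓ0 v, one_mul, map_one, MulAut.one_apply, hcard] at h1
  rw [Finset.prod_eq_one, one_mul] at h1
  · have h2 : v ^ (max q r) = 1 := by
      rw [pow_succ] at h1
      exact (mul_eq_right.1 h1.symm)
    have h3 : orderOf v ∣ Nat.gcd p (max q r) :=
      Nat.dvd_gcd (orderOf_dvd_of_pow_eq_one (hV v)) (orderOf_dvd_of_pow_eq_one h2)
    have h4 : Nat.gcd p (max q r) = 1 := by
      refine (Nat.Prime.coprime_iff_not_dvd hp).2 (hcop _ ?_)
      rcases le_total q r with h5 | h5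
      · rw [max_eq_right h5]; exact dvd_mul_left _ _
      · rw [max_eq_left h5]; exact dvd_mul_right _ _
    rw [h4] at h3
    exact orderOf_eq_one_iff.1 (Nat.dvd_one.1 h3)
  · rintro ⟨D, hD⟩ _
    simp only [primeSubs, Finset.mem_filter, Finset.mem_univ, true_and] at hD
    refine htriv _ ?_ ?_ v
    · rintro _ ⟨x, _, rfl⟩
      exact x.2
    · intro h0
      have h5 : D = ⊥ := (Subgroup.map_eq_bot_iff_of_injective D Γ'.subtype_injective).1 h0
      rw [h5, Subgroup.card_bot] at hD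
      exact Nat.not_prime_one hD

theorem ker_of_free {p : ℕ} (hp : p.Prime) (hne : ∃ v : V, v ≠ 1)
    (hfree : ∀ D : Subgroup Γ, ¬ p ∣ Nat.card D → D ≠ ⊥ → ∀ v : V, (∀ d ∈ D, b d v = v) → v = 1)
    (g : Γ) (hg : b g = 1) : ∃ k, g ^ p ^ k = 1 := by
  obtain ⟨k, m, hm, he⟩ := Nat.exists_eq_pow_mul_and_not_dvd (orderOf_pos g).ne' p hp.one_lt.ne'
  refine ⟨k, ?_⟩
  by_contra hne1
  obtain ⟨v, hv⟩ := hne
  apply hv
  refine hfree (Subgroup.zpowers (g ^ p ^ k)) (zp_not_dvd ?_) ?_ v ?_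
  · intro h1
    apply hm
    refine h1.trans (orderOf_dvd_of_pow_eq_one ?_)
    rw [← pow_mul, ← he, pow_orderOf_eq_one]
  · intro h0
    exact hne1 (Subgroup.zpowers_eq_bot.1 h0)
  · intro d hd
    refine fixed_zpowers b ?_ d hd
    rw [map_pow, hg, one_pow, MulAut.one_apply]

theorem inv_of_free {p : ℕ} (hp : p.Prime) (hp2 : p ≠ 2)
    (hfree : ∀ D : Subgroup Γ, ¬ p ∣ Nat.card D → D ≠ ⊥ → ∀ v : V, (∀ d ∈ D, b d v = v) → v = 1)
    {c : Γ} (hc : c * c = 1) (hc1 : c ≠ 1) (v : V) : b c v = v⁻¹ := by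
  refine inv_of_no_fixed b hc (fun w hw => ?_) v
  refine hfree (Subgroup.zpowers c) (card_zpowers_two hp hp2 hc) ?_ w fun d hd => fixed_zpowers b hw d hd
  intro h0
  exact hc1 (Subgroup.zpowers_eq_bot.1 h0)

end group

theorem fx_finrank (F : IntermediateField ℚ ℂ) [FiniteDimensional ℚ F] (D : Subgroup (F ≃ₐ[ℚ] F)) :
    Module.finrank ℚ (fx F D) * Nat.card D = Module.finrank ℚ F := by
  have h1 : Module.finrank ℚ (fx F D) = Module.finrank ℚ (IntermediateField.fixedField D) :=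
    (IntermediateField.liftAlgEquiv (IntermediateField.fixedField D)).toLinearEquiv.finrank_eq.symm
  rw [h1, ← IntermediateField.finrank_fixedField_eq_card D]
  exact Module.finrank_mul_finrank ℚ (IntermediateField.fixedField D) F

theorem tight_free {p : ℕ} (hp : p.Prime) {M : IntermediateField ℚ ℂ} (hM : FiniteDimensional ℚ M)
    (hR : IsTotallyReal M) (ht : Tight p M) :
    ∃ (V : Type) (_ : CommGroup V) (b : (M ≃ₐ[ℚ] M) →* MulAut V), (∀ v : V, v ^ p = 1) ∧ (∃ v : V, v ≠ 1) ∧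
      ∀ D : Subgroup (M ≃ₐ[ℚ] M), ¬ p ∣ Nat.card D → D ≠ ⊥ → ∀ v : V, (∀ d ∈ D, b d v = v) → v = 1 := by
  obtain ⟨V, i1, i2, b, hV, _, ⟨v, hv, _⟩, h⟩ := ht M hM hR ⊥ (card_bot hp) (fx_bot M)
  refine ⟨V, i1, b, hV, ⟨v, hv⟩, fun D hD hD0 => h D hD ?_⟩
  rw [Subgroup.card_bot]
  exact Subgroup.one_lt_card_iff_ne_bot D |>.2 hD0

theorem red {p : ℕ} (hp : p.Prime) (n : ℕ)
    (h : ∀ M : IntermediateField ℚ ℂ, FiniteDimensional ℚ M → IsTotallyReal M → Tight p M →
      Module.finrank ℚ M ≤ n → RayBdd p M)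
    (F : IntermediateField ℚ ℂ) (hF : FiniteDimensional ℚ F) (hR : IsTotallyReal F)
    (hn : Module.finrank ℚ F ≤ n) : RayBdd p F := by
  obtain ⟨m, hm⟩ : ∃ m, Module.finrank ℚ F = m := ⟨_, rfl⟩
  induction m using Nat.strong_induction_on generalizing F with
  | _ m ih =>
    by_cases ht : Tight p F
    · exact h F hF hR ht hn
    unfold Tight at ht
    push Not at ht
    obtain ⟨L, hL, hLR, H, hH, hHF, hpk⟩ := ht
    rw [← hHF]
    have : Finite (L ≃ₐ[ℚ] L) := inferInstance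
    have : Fintype {D : Subgroup (L ≃ₐ[ℚ] L) // ¬ p ∣ Nat.card D ∧ Nat.card H < Nat.card D} :=
      Fintype.ofFinite _
    refine mu_dom hp L hL H _ hH (fun D => D.2.1) (not_peak hpk) fun D => ?_
    have hlt : Module.finrank ℚ (fx L D.1) < Module.finrank ℚ F := by
      have h1 := fx_finrank L D.1
      have h2 := fx_finrank L H
      rw [hHF] at h2
      have h3 := D.2.2
      have h4 : 0 < Module.finrank ℚ F := Module.finrank_pos
      have h5 : 0 < Nat.card D.1 := Nat.card_pos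
      by_contra hle
      push Not at hle
      have h6 : Module.finrank ℚ F * Nat.card H < Module.finrank ℚ F * Nat.card D.1 :=
        (Nat.mul_lt_mul_left h4).2 h3
      have h7 : Module.finrank ℚ F * Nat.card D.1 ≤ Module.finrank ℚ (fx L D.1) * Nat.card D.1 :=
        Nat.mul_le_mul_right _ hle
      omega
    refine ih _ (by rw [← hm]; exact hlt) (fx L D.1) (fx_fd L D.1)
      (real_sub hL hLR (fx_le L D.1)) (hlt.le.trans hn) rfl

theorem peaks_iff {p : ℕ} (hp : p.Prime) (L : IntermediateField ℚ ℂ) (hL : FiniteDimensional ℚ L) :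
    RayBdd p L ↔ ∀ H : Subgroup (L ≃ₐ[ℚ] L), ¬ p ∣ Nat.card H → Peak p H → RayBdd p (fx L H) := by
  constructor
  · exact fun h H hH _ => mu_sub hp L hL H hH h
  · intro h
    have : Finite (L ≃ₐ[ℚ] L) := inferInstance
    have : Fintype {D : Subgroup (L ≃ₐ[ℚ] L) // ¬ p ∣ Nat.card D ∧ Peak p D} := Fintype.ofFinite _
    have h1 := mu_dom hp L hL ⊥ _ (card_bot hp)
      (fun D : {D : Subgroup (L ≃ₐ[ℚ] L) // ¬ p ∣ Nat.card D ∧ Peak p D} => D.2.1) (peaks_dominate hp)
      (fun D => h D.1 D.2.1 D.2.2)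
    rwa [fx_bot] at h1

theorem result (p : ℕ) (hp : p.Prime) :
    (∀ n : ℕ, (∀ M : IntermediateField ℚ ℂ, FiniteDimensional ℚ M → IsTotallyReal M → Tight p M →
        Module.finrank ℚ M ≤ n → RayBdd p M) →
      ∀ F : IntermediateField ℚ ℂ, FiniteDimensional ℚ F → IsTotallyReal F → Module.finrank ℚ F ≤ n →
        RayBdd p F) ∧
    (∀ L : IntermediateField ℚ ℂ, FiniteDimensional ℚ L →
      (RayBdd p L ↔ ∀ H : Subgroup (L ≃ₐ[ℚ] L), ¬ p ∣ Nat.card H → Peak p H → RayBdd p (fx L H))) ∧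
    (∀ M : IntermediateField ℚ ℂ, FiniteDimensional ℚ M → IsTotallyReal M → Tight p M →
      (∀ (Γ : Subgroup (M ≃ₐ[ℚ] M)) (q r : ℕ), q.Prime → r.Prime → q ≠ p → r ≠ p → Nat.card Γ = q * r →
        IsCyclic Γ) ∧
      (p ≠ 2 → ∀ c c' : M ≃ₐ[ℚ] M, c ≠ 1 → c' ≠ 1 → c * c = 1 → c' * c' = 1 → ∃ k, (c * c') ^ p ^ k = 1) ∧
      (p ≠ 2 → ∀ Γ : Subgroup (M ≃ₐ[ℚ] M), IsSimpleGroup Γ → (∃ a b : Γ, a * b ≠ b * a) →
        ∀ c ∈ Γ, c * c = 1 → c = 1)) := by
  refine ⟨fun n h F hF hR hn => red hp n h F hF hR hn, fun L hL => peaks_iff hp L hL, fun M hM hR ht => ?_⟩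
  obtain ⟨V, _, b, hV, hne, hfree⟩ := tight_free hp hM hR ht
  have : Finite (M ≃ₐ[ℚ] M) := inferInstance
  refine ⟨fun Γ q r hq hr hqp hrp hc => cyclic_of_free b hp hV hne hfree Γ hq hr hqp hrp hc,
    fun hp2 c c' hc1 hc1' hc hc' => ?_, fun hp2 Γ hΓ hn c hcΓ hc => ?_⟩
  · refine ker_of_free b hp hne hfree (c * c') ?_
    ext v
    rw [map_mul, MulAut.mul_apply, inv_of_free b hp hp2 hfree hc' hc1', inv_of_free b hp hp2 hfree hc hc1,
      inv_inv, MulAut.one_apply]
  · by_contra hc1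
    have h1 := comms_of_simple Γ hn hcΓ hc1
    have h2 : b c = 1 := comms_le_ker b (inv_of_free b hp hp2 hfree hc hc1) h1
    obtain ⟨v, hv⟩ := hne
    apply hv
    refine eq_one_two hp hp2 (hV v) ?_
    have h3 := inv_of_free b hp hp2 hfree hc hc1 v
    rw [h2, MulAut.one_apply] at h3
    nth_rewrite 2 [h3]
    exact mul_inv_cancel v

end Pool.Agent.Results.MP_4e64b4_nt.TightFields
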